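import Pool.Agent.helper35.TC.Y1
import Pool.Agent.helper74.TC.Refl

/-!
# TY-4: soundness of the enumeration

Used for `MP_a50e43_gt` (tight polyhedral embedding of complex projective 3-space).
-/

set_option autoImplicit false
open Topology

noncomputable section
namespace Pool.Agent.helper73.TC

namespace Y4

/-- masks outside `S` do not matter -/
lemma nfc_filt {S : ℕ} {N N' : List ℕ} (hN : ∀ m ∈ N, MOK m)
    (h : ∀ m, m ∈ N' ↔ m ∈ N ∧ Nat.land m S = m) : nfc 20 S N' = nfc 20 S N := by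
  ext s
  constructor
  · rintro ⟨h1, h2⟩
    refine ⟨h1, fun m hm hs => ?_⟩
    by_cases hmS : Nat.land m S = m
    · exact h2 m ((h m).mpr ⟨hm, hmS⟩) hs
    · apply hmS
      refine Nat.eq_of_testBit_eq fun i => ?_
      have e1 : (Nat.land m S).testBit i = (m.testBit i && S.testBit i) := Nat.testBit_and m S i
      rw [e1]
      by_cases hi : m.testBit i = true
      · have hi20 : i < 20 := by
          by_contra hge
          have h3 : m < 2 ^ i := lt_of_lt_of_le (hN m hm).1
            (by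
              have : (1048576 : ℕ) = 2 ^ 20 := by norm_num
              rw [this]
              exact Nat.pow_le_pow_right (by norm_num) (not_lt.mp hge))
          rw [Nat.testBit_eq_false_of_lt h3] at hi
          exact absurd hi (by decide)
        rw [hi, h1 ⟨i, hi20⟩ (hs ⟨i, hi20⟩ hi)]
        rfl
      · rw [Bool.not_eq_true] at hi
        rw [hi, Bool.false_and]
  · rintro ⟨h1, h2⟩
    exact ⟨h1, fun m hm => h2 m ((h m).mp hm).1⟩

lemma bit_lt {S c : ℕ} (hS : S < 1048576) (h : S.testBit c = true) : c < 20 := by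
  by_contra hge
  have h3 : S < 2 ^ c := lt_of_lt_of_le hS
    (by
      have : (1048576 : ℕ) = 2 ^ 20 := by norm_num
      rw [this]
      exact Nat.pow_le_pow_right (by norm_num) (not_lt.mp hge))
  rw [Nat.testBit_eq_false_of_lt h3] at h
  exact absurd h (by decide)

lemma xor_lt {a b : ℕ} (ha : a < 1048576) (hb : b < 1048576) : Nat.xor a b < 1048576 :=
  Nat.xor_lt_two_pow (n := 20) ha hb

lemma and_lt {a : ℕ} (b : ℕ) (ha : a < 1048576) : Nat.land a b < 1048576 :=
  lt_of_le_of_lt Nat.and_le_left ha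

lemma rmp_lt {S c : ℕ} (hS : S < 1048576) : rmp S c < 1048576 := xor_lt hS (and_lt _ hS)

lemma pow_lt {c : ℕ} (hc : c < 20) : Nat.pow 2 c < 1048576 := by
  have : (1048576 : ℕ) = 2 ^ 20 := by norm_num
  rw [this]
  exact Nat.pow_lt_pow_right (by norm_num) hc

lemma tb_xor (S c w : ℕ) : (Nat.xor S (Nat.pow 2 c)).testBit w = (S.testBit w ^^ decide (c = w)) := by
  have h := Nat.testBit_xor S (2 ^ c) w
  rw [Nat.testBit_two_pow] at h
  exact h

/-- all sets with at most one change in each pair -/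
def All3 (Q : ℕ → Prop) : List ℕ → ℕ → Prop
  | [], S => Q S
  | j :: js, S => All3 Q js S ∧ All3 Q js (Nat.xor S (Nat.pow 2 (Nat.mul 2 j))) ∧
      All3 Q js (Nat.xor S (Nat.pow 2 (Nat.succ (Nat.mul 2 j))))

/-- all sets with exactly one change in each pair -/
def All2 (Q : ℕ → Prop) : List ℕ → ℕ → Prop
  | [], S => Q S
  | j :: js, S => All2 Q js (Nat.xor S (Nat.pow 2 (Nat.mul 2 j))) ∧
      All2 Q js (Nat.xor S (Nat.pow 2 (Nat.succ (Nat.mul 2 j))))

lemma fam_sound (f : ℕ → ℕ → (ℕ → Bool) → Bool) (Q : ℕ → Prop)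
    (hf : ∀ S pos k, S < 1048576 → f S pos k = true → (∃ pos', k pos' = true) ∧ Q S)
    (js : List ℕ) (hjs : ∀ j ∈ js, j < 10) :
    ∀ S pos k, S < 1048576 → Pa.fam f js S pos k = true →
      (∃ pos', k pos' = true) ∧ All3 Q js S := by
  induction js with
  | nil => exact fun S pos k hS h => hf S pos k hS h
  | cons j js ih =>
    intro S pos k hS h
    have ih' := ih fun i hi => hjs i (List.mem_cons_of_mem _ hi)
    have hj : j < 10 := hjs j List.mem_cons_self
    have b1 : Nat.xor S (Nat.pow 2 (Nat.mul 2 j)) < 1048576 := xor_lt hS (pow_lt (by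
      change 2 * j < 20
      omega))
    have b2 : Nat.xor S (Nat.pow 2 (Nat.succ (Nat.mul 2 j))) < 1048576 := xor_lt hS (pow_lt (by
      change 2 * j + 1 < 20
      omega))
    have h' : Pa.fam f js S pos (fun p1 => Pa.fam f js (Nat.xor S (Nat.pow 2 (Nat.mul 2 j))) p1
      fun p2 => Pa.fam f js (Nat.xor S (Nat.pow 2 (Nat.succ (Nat.mul 2 j)))) p2 k) = true := h
    obtain ⟨⟨p1, h1⟩, a1⟩ := ih' _ _ _ hS h'
    obtain ⟨⟨p2, h2⟩, a2⟩ := ih' _ _ _ b1 h1
    obtain ⟨h3, a3⟩ := ih' _ _ _ b2 h2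
    exact ⟨h3, a1, a2, a3⟩

lemma fam2_sound (f : ℕ → ℕ → (ℕ → Bool) → Bool) (Q : ℕ → Prop)
    (hf : ∀ S pos k, S < 1048576 → f S pos k = true → (∃ pos', k pos' = true) ∧ Q S)
    (js : List ℕ) (hjs : ∀ j ∈ js, j < 10) :
    ∀ S pos k, S < 1048576 → Pa.fam2 f js S pos k = true →
      (∃ pos', k pos' = true) ∧ All2 Q js S := by
  induction js with
  | nil => exact fun S pos k hS h => hf S pos k hS h
  | cons j js ih =>
    intro S pos k hS h
    have ih' := ih fun i hi => hjs i (List.mem_cons_of_mem _ hi)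
    have hj : j < 10 := hjs j List.mem_cons_self
    have b1 : Nat.xor S (Nat.pow 2 (Nat.mul 2 j)) < 1048576 := xor_lt hS (pow_lt (by
      change 2 * j < 20
      omega))
    have b2 : Nat.xor S (Nat.pow 2 (Nat.succ (Nat.mul 2 j))) < 1048576 := xor_lt hS (pow_lt (by
      change 2 * j + 1 < 20
      omega))
    have h' : Pa.fam2 f js (Nat.xor S (Nat.pow 2 (Nat.mul 2 j))) pos
      (fun p1 => Pa.fam2 f js (Nat.xor S (Nat.pow 2 (Nat.succ (Nat.mul 2 j)))) p1 k) = true := h
    obtain ⟨⟨p1, h1⟩, a1⟩ := ih' _ _ _ b1 h'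
    obtain ⟨h3, a3⟩ := ih' _ _ _ b2 h1
    exact ⟨h3, a1, a3⟩

lemma toggled {S S' c : ℕ} (h : S'.testBit c ≠ S.testBit c) (w : ℕ) :
    (S'.testBit w ≠ (Nat.xor S (Nat.pow 2 c)).testBit w) ↔ (w ≠ c ∧ S'.testBit w ≠ S.testBit w) := by
  rw [tb_xor]
  by_cases hw : c = w
  · subst hw
    simp only [decide_true, Bool.xor_true, ne_eq, not_true_eq_false, false_and, iff_false, not_not]
    cases h1 : S'.testBit c <;> cases h2 : S.testBit c <;> simp_all
  · simp only [hw, decide_false, Bool.xor_false, ne_eq]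
    constructor
    · exact fun h => ⟨fun h' => hw h'.symm, h⟩
    · exact fun h => h.2

lemma toggled_ne {S c w : ℕ} (h : w ≠ c) : (Nat.xor S (Nat.pow 2 c)).testBit w = S.testBit w := by
  rw [tb_xor, decide_eq_false (Ne.symm h), Bool.xor_false]

lemma all3_spec {Q : ℕ → Prop} (js : List ℕ) (hnd : js.Nodup) : ∀ S S', All3 Q js S →
    (∀ w, S'.testBit w ≠ S.testBit w → w / 2 ∈ js) →
    (∀ j ∈ js, S'.testBit (2 * j) = S.testBit (2 * j) ∨
      S'.testBit (2 * j + 1) = S.testBit (2 * j + 1)) → Q S' := by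
  induction js with
  | nil =>
    intro S S' hQ h1 _
    have : S' = S := Nat.eq_of_testBit_eq fun i => by
      by_contra hne
      exact absurd (h1 i hne) List.not_mem_nil
    rw [this]
    exact hQ
  | cons j js ih =>
    intro S S' hQ h1 h2
    obtain ⟨q1, q2, q3⟩ := hQ
    obtain ⟨hj, hnd'⟩ := List.nodup_cons.mp hnd
    by_cases e0 : S'.testBit (2 * j) = S.testBit (2 * j)
    · by_cases e1 : S'.testBit (2 * j + 1) = S.testBit (2 * j + 1)
      · refine ih hnd' S S' q1 (fun w hw => ?_) fun i hi => h2 i (List.mem_cons_of_mem _ hi)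
        rcases List.mem_cons.mp (h1 w hw) with h | h
        · exfalso
          have : w = 2 * j ∨ w = 2 * j + 1 := by omega
          rcases this with rfl | rfl
          · exact hw e0
          · exact hw e1
        · exact h
      · refine ih hnd' (Nat.xor S (Nat.pow 2 (2 * j + 1))) S' q3 (fun w hw => ?_) fun i hi => ?_
        · obtain ⟨hw1, hw2⟩ := (toggled e1 w).mp hw
          rcases List.mem_cons.mp (h1 w hw2) with h | h
          · exfalso
            have : w = 2 * j ∨ w = 2 * j + 1 := by omega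
            rcases this with rfl | rfl
            · exact hw2 e0
            · exact hw1 rfl
          · exact h
        · have hne : i ≠ j := fun h => hj (h ▸ hi)
          rw [toggled_ne (by omega : 2 * i ≠ 2 * j + 1),
            toggled_ne (by omega : 2 * i + 1 ≠ 2 * j + 1)]
          exact h2 i (List.mem_cons_of_mem _ hi)
    · have e1 : S'.testBit (2 * j + 1) = S.testBit (2 * j + 1) :=
        (h2 j List.mem_cons_self).resolve_left e0
      refine ih hnd' (Nat.xor S (Nat.pow 2 (2 * j))) S' q2 (fun w hw => ?_) fun i hi => ?_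
      · obtain ⟨hw1, hw2⟩ := (toggled e0 w).mp hw
        rcases List.mem_cons.mp (h1 w hw2) with h | h
        · exfalso
          have : w = 2 * j ∨ w = 2 * j + 1 := by omega
          rcases this with rfl | rfl
          · exact hw1 rfl
          · exact hw2 e1
        · exact h
      · have hne : i ≠ j := fun h => hj (h ▸ hi)
        rw [toggled_ne (by omega : 2 * i ≠ 2 * j), toggled_ne (by omega : 2 * i + 1 ≠ 2 * j)]
        exact h2 i (List.mem_cons_of_mem _ hi)

lemma all2_spec {Q : ℕ → Prop} (js3 js2 : List ℕ) (hnd : (js2 ++ js3).Nodup) :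
    ∀ S0 S, All2 (All3 Q js3) js2 S0 → En js2 js3 S0 S → Q S := by
  induction js2 with
  | nil =>
    intro S0 S hQ hE
    refine all3_spec js3 (by simpa using hnd) S0 S hQ (fun w hw => ?_) hE.2.2
    rcases hE.1 w hw with h | h
    · exact absurd h List.not_mem_nil
    · exact h
  | cons j js2 ih =>
    intro S0 S hQ hE
    obtain ⟨q1, q2⟩ := hQ
    obtain ⟨e1, e2, e3⟩ := hE
    rw [List.cons_append] at hnd
    obtain ⟨hj, hnd'⟩ := List.nodup_cons.mp hnd
    rw [List.mem_append, not_or] at hj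
    have hjj := e2 j List.mem_cons_self
    -- a common step
    have step : ∀ c d, (c = 2 * j ∧ d = 2 * j + 1 ∨ c = 2 * j + 1 ∧ d = 2 * j) →
        S.testBit c ≠ S0.testBit c → S.testBit d = S0.testBit d →
        En js2 js3 (Nat.xor S0 (Nat.pow 2 c)) S := by
      intro c d hcd hc hd
      refine ⟨fun w hw => ?_, fun i hi => ?_, fun i hi => ?_⟩
      · obtain ⟨hw1, hw2⟩ := (toggled hc w).mp hw
        rcases e1 w hw2 with h | h
        · rcases List.mem_cons.mp h with h | h
          · exfalso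
            have : w = c ∨ w = d := by omega
            rcases this with rfl | rfl
            · exact hw1 rfl
            · exact hw2 hd
          · exact Or.inl h
        · exact Or.inr h
      · have hne : i ≠ j := fun h => hj.1 (h ▸ hi)
        rw [toggled_ne (by omega : 2 * i ≠ c), toggled_ne (by omega : 2 * i + 1 ≠ c)]
        exact e2 i (List.mem_cons_of_mem _ hi)
      · have hne : i ≠ j := fun h => hj.2 (h ▸ hi)
        rw [toggled_ne (by omega : 2 * i ≠ c), toggled_ne (by omega : 2 * i + 1 ≠ c)]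
        exact e3 i hi
    by_cases e0 : S.testBit (2 * j) = S0.testBit (2 * j)
    · have h1 : S.testBit (2 * j + 1) ≠ S0.testBit (2 * j + 1) := fun h => (hjj.mpr h) e0
      exact ih hnd' (Nat.xor S0 (Nat.pow 2 (2 * j + 1))) S q2
        (step (2 * j + 1) (2 * j) (Or.inr ⟨rfl, rfl⟩) h1 e0)
    · exact ih hnd' (Nat.xor S0 (Nat.pow 2 (2 * j))) S q1
        (step (2 * j) (2 * j + 1) (Or.inl ⟨rfl, rfl⟩) e0 (hjj.mp e0))

end Y4

theorem leaf_sound (F : Type) [Field F] (mode : Bool) (v : ℕ) (N1 : List ℕ) (T : List (List ℕ))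
    (D S pos : ℕ) (k : ℕ → Bool) (hS : S < 1048576) (hN : ∀ m ∈ N1, MOK m)
    (hT : ∀ c, v + 2 ≤ c → c < 20 → ∀ m ∈ Pa.getL T c, MOK m)
    (h : Pa.leaf mode v N1 T D S pos k = true) :
    (∃ pos', k pos' = true) ∧ Good F mode v N1 T S := by
  unfold Pa.leaf at h
  rw [Ce.brec_iff] at h
  by_cases h31 : Nat.beq (Pa.ent5 D pos) 31 = true
  · obtain ⟨N', hk, hN'⟩ := filt_sound S N1 _ (h.1 h31)
    obtain ⟨h1, -, h3⟩ := ck_sound F D 64 true S N' (Nat.succ pos) k hS
      (fun m hm => hN m ((hN' m).mp hm).1) hk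
    refine ⟨h1, Or.inl ?_⟩
    rw [← Y4.nfc_filt hN hN']
    exact h3 rfl
  · have h2 := h.2 (Bool.not_eq_true _ ▸ h31)
    rw [Ce.brec_false_iff, Ce.and_iff, Ce.and_iff, Ce.or_iff, Ce.not_iff, Ce.ble_iff,
      Ce.brec_iff] at h2
    obtain ⟨⟨hv, hc, hm⟩, h3, h4⟩ := h2
    set c := Pa.ent5 D pos with hcdef
    have hc20 : c < 20 := Y4.bit_lt hS hc
    have hr : Nat.beq (rmp S c) 0 = false := by
      by_contra hne
      rw [Bool.not_eq_false] at hne
      exact absurd (h3 hne) (by decide)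
    have hr0 : rmp S c ≠ 0 := fun h0 => by
      rw [h0] at hr
      exact absurd hr (by decide)
    obtain ⟨N', hk, hN'⟩ := filt_sound (rmp S c) (Pa.getL T c) _ (h4 hr)
    obtain ⟨h1, h5, -⟩ := ck_sound F D 64 false (rmp S c) N' (Nat.succ pos) k (Y4.rmp_lt hS)
      (fun m hm => hT c hv hc20 m ((hN' m).mp hm).1) hk
    refine ⟨h1, Or.inr ⟨c, hv, hc20, hc, fun hmode => ?_, hr0, ?_⟩⟩
    · rcases hm with hm | hm
      · rw [hmode] at hm
        exact absurd hm (by decide)
      · exact hm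
    · rw [← Y4.nfc_filt (hT c hv hc20) hN']
      exact h5 rfl

theorem chk_sound (F : Type) [Field F] (mode : Bool) (v : ℕ) (N1 : List ℕ) (T : List (List ℕ))
    (D S0 : ℕ) (js2 js3 : List ℕ) (len : ℕ) (hS : S0 < 1048576) (hN : ∀ m ∈ N1, MOK m)
    (hT : ∀ c, v + 2 ≤ c → c < 20 → ∀ m ∈ Pa.getL T c, MOK m)
    (hnd : (js2 ++ js3).Nodup) (hlt : ∀ j ∈ js2 ++ js3, j < 10)
    (h : Pa.chk mode v N1 T D S0 js2 js3 len = true) (S : ℕ) (hE : En js2 js3 S0 S) :
    Good F mode v N1 T S := by
  have h1 := Y4.fam2_sound (Pa.fam (Pa.leaf mode v N1 T D) js3) (Y4.All3 (Good F mode v N1 T) js3)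
    (Y4.fam_sound (Pa.leaf mode v N1 T D) (Good F mode v N1 T)
      (fun S pos k hS h => leaf_sound F mode v N1 T D S pos k hS hN hT h) js3
      (fun j hj => hlt j (List.mem_append_right _ hj))) js2
      (fun j hj => hlt j (List.mem_append_left _ hj)) S0 0 (fun pos => Nat.beq pos len) hS h
  exact Y4.all2_spec js3 js2 hnd S0 S h1.2 hE

end Pool.Agent.helper73.TC
end
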