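import Pool.Agent.helper73.TC.XDefs

/-!
# TX-G2: gluing the cells to a bijection `|T| -> (bd3)^3`

Used for `MP_a50e43_gt` (tight polyhedral embedding of complex projective 3-space).
-/

set_option autoImplicit false
open Topology

noncomputable section
namespace Pool.Agent.helper73.TC

namespace G2

variable {V : Type}

/-- Passing from the cell `o'` to the cell `o`. -/
lemma move (P : V → Fin 3 → Fin 4 → ℝ) (T : (Fin 3 → Fin 4) → Finset (Finset V))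
    (hc : ∀ o o', (∃ i, ∀ k, k ≠ i → o k = o' k) → ∀ σ ∈ T o, ∃ τ ∈ T o',
      ∀ v ∈ σ, (∀ i, P v i (o' i) = 0) → v ∈ τ) (o o' : Fin 3 → Fin 4) (S : V → Prop)
    (hS : ∃ σ ∈ T o', ∀ v, S v → v ∈ σ) (h1 : ∀ v, S v → ∀ i, P v i (o' i) = 0)
    (h2 : ∀ v, S v → ∀ i, P v i (o i) = 0) : ∃ σ ∈ T o, ∀ v, S v → v ∈ σ := by
  have step : ∀ a b : Fin 3 → Fin 4, (∃ i, ∀ k, k ≠ i → a k = b k) →
      (∃ σ ∈ T a, ∀ v, S v → v ∈ σ) → (∀ v, S v → ∀ i, P v i (b i) = 0) →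
      ∃ σ ∈ T b, ∀ v, S v → v ∈ σ := by
    rintro a b hab ⟨σ, hσ, hs⟩ hb
    obtain ⟨τ, hτ, ht⟩ := hc a b hab σ hσ
    exact ⟨τ, hτ, fun v hv => ht v (hs v hv) (hb v hv)⟩
  have s1 := step o' ![o 0, o' 1, o' 2] ⟨0, fun k hk => by
    fin_cases k
    · exact absurd rfl hk
    · rfl
    · rfl⟩ hS (fun v hv i => by
      fin_cases i
      · exact h2 v hv 0
      · exact h1 v hv 1
      · exact h1 v hv 2)
  have s2 := step ![o 0, o' 1, o' 2] ![o 0, o 1, o' 2] ⟨1, fun k hk => by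
    fin_cases k
    · rfl
    · exact absurd rfl hk
    · rfl⟩ s1 (fun v hv i => by
      fin_cases i
      · exact h2 v hv 0
      · exact h2 v hv 1
      · exact h1 v hv 2)
  exact step ![o 0, o 1, o' 2] o ⟨2, fun k hk => by
    fin_cases k
    · rfl
    · rfl
    · exact absurd rfl hk⟩ s2 h2

end G2

theorem glue {V : Type} [Fintype V] [DecidableEq V]
    (P : V → Fin 3 → Fin 4 → ℝ) (hP0 : ∀ v i j, 0 ≤ P v i j) (hP1 : ∀ v i, ∑ j, P v i j = 1)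
    (T : (Fin 3 → Fin 4) → Finset (Finset V))
    (hb : ∀ o, CellBij P o (T o))
    (hv : ∀ o, ∀ σ ∈ T o, ∀ v ∈ σ, ∀ i, P v i (o i) = 0)
    (hc : ∀ o o', (∃ i, ∀ k, k ≠ i → o k = o' k) → ∀ σ ∈ T o, ∃ τ ∈ T o',
      ∀ v ∈ σ, (∀ i, P v i (o' i) = 0) → v ∈ τ) :
    ∃ θ : C(Real (CX T), Fin 3 → Real bd3), Function.Bijective θ ∧
      ∀ x i j, ((θ x i).1 : Fin 4 → ℝ) j = ∑ v, (x.1 : V → ℝ) v * P v i j := by
  have hx0 : ∀ (x : Real (CX T)) v, 0 ≤ (x.1 : V → ℝ) v := fun x v => x.1.2.1 v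
  have hx1 : ∀ x : Real (CX T), ∑ v, (x.1 : V → ℝ) v = 1 := fun x => x.1.2.2
  -- the support of a point
  have hsup : ∀ x : Real (CX T), ∃ o, ∃ σ ∈ T o, ∀ v, (x.1 : V → ℝ) v ≠ 0 → v ∈ σ := by
    intro x
    obtain ⟨o, σ, hσ, hs⟩ := x.2
    refine ⟨o, σ, hσ, fun v hv => hs ?_⟩
    rw [Finset.mem_filter]
    exact ⟨Finset.mem_univ v, lt_of_le_of_ne (hx0 x v) (Ne.symm hv)⟩
  have hz0 : ∀ (x : Real (CX T)) i j, 0 ≤ ∑ v, (x.1 : V → ℝ) v * P v i j := fun x i j =>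
    Finset.sum_nonneg fun v _ => mul_nonneg (hx0 x v) (hP0 v i j)
  have hz1 : ∀ (x : Real (CX T)) i, ∑ j, ∑ v, (x.1 : V → ℝ) v * P v i j = 1 := by
    intro x i
    rw [Finset.sum_comm, ← hx1 x]
    refine Finset.sum_congr rfl fun v _ => ?_
    rw [← Finset.mul_sum, hP1, mul_one]
  have hzo : ∀ (x : V → ℝ) (o : Fin 3 → Fin 4) (σ : Finset V), σ ∈ T o →
      (∀ v, x v ≠ 0 → v ∈ σ) → ∀ i, ∑ v, x v * P v i (o i) = 0 := by
    intro x o σ hσ hs i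
    refine Finset.sum_eq_zero fun v _ => ?_
    by_cases h : x v = 0
    · rw [h, zero_mul]
    · rw [hv o σ hσ v (hs v h) i, mul_zero]
  have hzs : ∀ (x : Real (CX T)) i,
      (Finset.univ.filter fun j => 0 < ∑ v, (x.1 : V → ℝ) v * P v i j) ≠ Finset.univ := by
    intro x i h
    obtain ⟨o, σ, hσ, hs⟩ := hsup x
    have h1 := hzo _ o σ hσ hs i
    have h2 : o i ∈ Finset.univ.filter fun j => 0 < ∑ v, (x.1 : V → ℝ) v * P v i j := by
      rw [h]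
      exact Finset.mem_univ _
    rw [Finset.mem_filter] at h2
    exact absurd h1 h2.2.ne'
  have hcont : ∀ i j, Continuous fun x : Real (CX T) => ∑ v, (x.1 : V → ℝ) v * P v i j := by
    intro i j
    refine continuous_finsetSum _ fun v _ => Continuous.mul ?_ continuous_const
    have h1 : Continuous fun x : Real (CX T) => x.1 := continuous_subtype_val
    exact (continuous_apply v).comp (continuous_subtype_val.comp h1)
  let th : Real (CX T) → Fin 3 → Real bd3 := fun x i =>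
    ⟨⟨fun j => ∑ v, (x.1 : V → ℝ) v * P v i j, hz0 x i, hz1 x i⟩, hzs x i⟩
  have hth : Continuous th := by
    refine continuous_pi fun i => ?_
    refine Continuous.subtype_mk ?_ _
    refine Continuous.subtype_mk ?_ _
    exact continuous_pi fun j => hcont i j
  have hval : ∀ x i j, ((th x i).1 : Fin 4 → ℝ) j = ∑ v, (x.1 : V → ℝ) v * P v i j :=
    fun x i j => rfl
  refine ⟨⟨th, hth⟩, ⟨?_, ?_⟩, hval⟩
  · intro x y hxy
    have heq : ∀ i j, ∑ v, (x.1 : V → ℝ) v * P v i j = ∑ v, (y.1 : V → ℝ) v * P v i j := by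
      intro i j
      rw [← hval, ← hval]
      exact congrArg (fun z : Fin 3 → Real bd3 => ((z i).1 : Fin 4 → ℝ) j) hxy
    obtain ⟨o, σ, hσ, hs⟩ := hsup x
    obtain ⟨o', τ, hτ, ht⟩ := hsup y
    have hxo := hzo _ o σ hσ hs
    have hyo : ∀ i, ∑ v, (y.1 : V → ℝ) v * P v i (o i) = 0 := fun i => by
      rw [← heq]
      exact hxo i
    have h2 : ∀ v, (y.1 : V → ℝ) v ≠ 0 → ∀ i, P v i (o i) = 0 := by
      intro v hvne i
      have h3 := (Finset.sum_eq_zero_iff_of_nonneg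
        (fun w _ => mul_nonneg (hx0 y w) (hP0 w i (o i)))).mp (hyo i) v (Finset.mem_univ v)
      exact (mul_eq_zero.mp h3).resolve_left hvne
    have h1 : ∀ v, (y.1 : V → ℝ) v ≠ 0 → ∀ i, P v i (o' i) = 0 := fun v hvne =>
      hv o' τ hτ v (ht v hvne)
    obtain ⟨ρ, hρ, hr⟩ := G2.move P T hc o o' (fun v => (y.1 : V → ℝ) v ≠ 0) ⟨τ, hτ, ht⟩ h1 h2
    obtain ⟨w, -, hw⟩ := hb o (fun i j => ∑ v, (x.1 : V → ℝ) v * P v i j) (hz0 x) (hz1 x) hxo
    have e1 := hw (x.1 : V → ℝ) ⟨hx0 x, hx1 x, ⟨σ, hσ, hs⟩, fun i j => rfl⟩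
    have e2 := hw (y.1 : V → ℝ) ⟨hx0 y, hx1 y, ⟨ρ, hρ, hr⟩, fun i j => (heq i j).symm⟩
    exact Subtype.ext (Subtype.ext (e1.trans e2.symm))
  · intro z
    have hz : ∀ i, ∃ j, ((z i).1 : Fin 4 → ℝ) j = 0 := by
      intro i
      by_contra hne
      push Not at hne
      refine (z i).2 ?_
      rw [Finset.filter_eq_self]
      exact fun j _ => lt_of_le_of_ne ((z i).1.2.1 j) (Ne.symm (hne j))
    choose o ho using hz
    obtain ⟨x, ⟨hx0', hx1', ⟨σ, hσ, hs⟩, hxz⟩, -⟩ := hb o (fun i j => ((z i).1 : Fin 4 → ℝ) j)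
      (fun i j => (z i).1.2.1 j) (fun i => (z i).1.2.2) ho
    refine ⟨⟨⟨x, hx0', hx1'⟩, ⟨o, σ, hσ, fun v hvm => ?_⟩⟩, ?_⟩
    · exact hs v (Finset.mem_filter.mp hvm).2.ne'
    · funext i
      refine Subtype.ext (Subtype.ext (funext fun j => ?_))
      exact hxz i j

end Pool.Agent.helper73.TC
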