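import Mathlib

/-!
# TX-Q: two Hausdorff quotients of a compact space with the same fibres are homeomorphic

Used for `MP_a50e43_gt` (tight polyhedral embedding of complex projective 3-space).
-/

set_option autoImplicit false
open Topology

noncomputable section
namespace Pool.Agent.helper73.TC

theorem homeo_of_fibers {Z P L : Type} [TopologicalSpace Z] [TopologicalSpace P] [TopologicalSpace L]
    [CompactSpace Z] [T2Space P] [T2Space L] (f : C(Z, P)) (g : C(Z, L))
    (hf : Function.Surjective f) (hg : Function.Surjective g)
    (h : ∀ z z', f z = f z' ↔ g z = g z') : Nonempty (P ≃ₜ L) := by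
  have qf : IsQuotientMap f := f.continuous.isClosedMap.isQuotientMap f.continuous hf
  have qg : IsQuotientMap g := g.continuous.isClosedMap.isQuotientMap g.continuous hg
  let a : C(P, L) := qf.lift g (fun z z' hz => (h z z').mp hz)
  let b : C(L, P) := qg.lift f (fun z z' hz => (h z z').mpr hz)
  have ha : ∀ z, a (f z) = g z := fun z =>
    DFunLike.congr_fun (qf.lift_comp g (fun z z' hz => (h z z').mp hz)) z
  have hb : ∀ z, b (g z) = f z := fun z =>
    DFunLike.congr_fun (qg.lift_comp f (fun z z' hz => (h z z').mpr hz)) z
  refine ⟨⟨⟨a, b, ?_, ?_⟩, a.continuous, b.continuous⟩⟩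
  · intro p
    obtain ⟨z, rfl⟩ := hf p
    rw [ha, hb]
  · intro p
    obtain ⟨z, rfl⟩ := hg p
    rw [hb, ha]

end Pool.Agent.helper73.TC
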